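import Mathlib

set_option autoImplicit false

namespace Pool.Agent.Results.MP_1599f7_gt.Free

open Set Function Filter Topology

universe u

/-- A splitting Suslin tree in which products of cones over finitely many pairwise incomparable
nodes have no uncountable family of pairwise incompatible points. -/
def FreeSuslin (T : Type u) [PartialOrder T] : Prop :=
  Uncountable T ∧ WellFoundedLT T ∧ (∀ t : T, IsChain (· ≤ ·) (Iic t)) ∧
    (∀ C : Set T, IsChain (· ≤ ·) C → C.Countable) ∧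
    (∀ A : Set T, IsAntichain (· ≤ ·) A → A.Countable) ∧
    (∀ t : T, ∃ u v, t < u ∧ t < v ∧ ¬ u ≤ v ∧ ¬ v ≤ u) ∧
    ∀ F : Set T, F.Finite → IsAntichain (· ≤ ·) F → ∀ A : Set (F → T), (∀ a ∈ A, ∀ i : F, i.1 ≤ a i) →
      A.Pairwise (fun a b => ¬ ∃ c, a ≤ c ∧ b ≤ c) → A.Countable

def Lusin (X : Type u) [TopologicalSpace X] : Prop :=
  T2Space X ∧ (∀ N : Set X, IsNowhereDense N → N.Countable) ∧ {x : X | IsOpen {x}}.Countable ∧
    Uncountable X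

def Gamma (X : Type u) [TopologicalSpace X] : Prop :=
  ∀ 𝒰 : Set (Set X), (∀ U ∈ 𝒰, IsOpen U) → univ ∉ 𝒰 → (∀ F : Set X, F.Finite → ∃ U ∈ 𝒰, F ⊆ U) →
    ∃ 𝒱 ⊆ 𝒰, 𝒱.Infinite ∧ ⋃₀ 𝒱 = univ ∧ ∀ x, {V ∈ 𝒱 | x ∉ V}.Finite

theorem mac {P : Type*} (r : P → P → Prop) (s : ∀ a b, r a b → r b a) (e : ∀ a, r a a) (D : Set P) :
    ∃ A ⊆ D, (A.Pairwise fun a b => ¬ r a b) ∧ ∀ d ∈ D, ∃ a ∈ A, r d a := by
  obtain ⟨A, m⟩ := zorn_subset {A | A ⊆ D ∧ A.Pairwise fun a b => ¬ r a b} fun c k l =>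
    ⟨⋃₀ c, ⟨sUnion_subset fun t h => (k h).1, (pairwise_sUnion l.directedOn).2 fun t h => (k h).2⟩,
      fun _ => subset_sUnion_of_mem⟩
  refine ⟨A, m.prop.1, m.prop.2, fun d h => by_contra fun k => k ⟨d, m.le_of_ge (y := insert d A)
    ⟨insert_subset h m.prop.1, pairwise_insert.2 ⟨m.prop.2, fun a l _ =>
      ⟨fun o => k ⟨a, l, o⟩, fun o => k ⟨a, l, s _ _ o⟩⟩⟩⟩ (subset_insert _ _) (.inl rfl), e d⟩⟩

theorem clo {T : Type*} (t : T) (φ : Set T → Set T) (h : ∀ H, H.Finite → (φ H).Countable) :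
    ∃ M : Set T, M.Countable ∧ t ∈ M ∧ ∀ H ⊆ M, H.Finite → φ H ⊆ M := by
  let M : ℕ → Set T := Nat.rec {t} fun _ M => M ∪ ⋃ H ∈ {H | H.Finite ∧ H ⊆ M}, φ H
  refine ⟨⋃ n, M n, countable_iUnion fun n => n.rec (countable_singleton t) fun n k => k.union
    ((countable_setOf_finite_subset k).biUnion fun H l => h H l.1), mem_iUnion.2 ⟨0, rfl⟩,
    fun H k l => ?_⟩
  obtain ⟨n, o⟩ := ((eventually_all_finite l).2 fun x a => (mem_iUnion.1 (k a)).elim fun n b =>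
    (eventually_ge_atTop n).mono fun m c =>
      monotone_nat_of_le_succ (f := M) (fun _ => subset_union_left) c b).exists
  exact fun x a => mem_iUnion.2 ⟨n + 1, .inr (mem_biUnion ⟨l, o⟩ a)⟩

theorem result (T : Type u) [PartialOrder T] (h : FreeSuslin T) :
    ∃ (X : Type u) (_ : TopologicalSpace X), Lusin X ∧ Gamma X := by
  obtain ⟨h1, -, h2, h3, h4, h5, h6⟩ := h
  have tr : ∀ {a b c : T}, a ≤ c → b ≤ c → a ≤ b ∨ b ≤ a := fun k l => (h2 _).total k l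
  choose b hb using fun t : T => Flag.exists_mem t
  have dn : ∀ {x : Flag T} {s t}, s ≤ t → t ∈ x → s ∈ x := fun k l =>
    Flag.mem_iff_forall_le_or_ge.2 fun u m => (Flag.le_or_le _ m l).elim (tr k) fun o =>
      .inl (k.trans o)
  let B : T → Set (range b) := fun s => {x | s ∈ x.1}
  let β : T → range b := fun t => ⟨b t, t, rfl⟩
  have up : ∀ (x : range b) (U : Set (range b)) s, s ∈ x.1 → (∃ t ∈ x.1, B t ⊆ U) →
      ∃ t ∈ x.1, s ≤ t ∧ B t ⊆ U := fun x U s k ⟨t, l, m⟩ => (Flag.le_or_le _ k l).elim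
    (fun o => ⟨t, l, o, m⟩) fun o => ⟨s, k, le_rfl, fun y p => m (dn o p)⟩
  letI : TopologicalSpace (range b) :=
    { IsOpen U := ∀ x ∈ U, ∃ s ∈ x.1, B s ⊆ U
      isOpen_univ := fun ⟨_, t, rfl⟩ _ => ⟨t, hb t, subset_univ _⟩
      isOpen_inter := fun U V k l x m => by
        obtain ⟨s, o, p⟩ := k x m.1
        obtain ⟨t, q, r, w⟩ := up x V s o (l x m.2)
        exact ⟨t, q, fun y z => ⟨p (dn r z), w z⟩⟩
      isOpen_sUnion := fun c k x ⟨U, l, m⟩ => (k U l x m).imp fun s o =>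
        ⟨o.1, o.2.trans (subset_sUnion_of_mem l)⟩ }
  have op : ∀ s, IsOpen (B s) := fun s x k => ⟨s, k, subset_rfl⟩
  have gen : ∀ D : Set T, (∀ s, ∃ u ∈ D, s ≤ u) →
      ∃ A ⊆ D, A.Countable ∧ ∀ t, ∃ a ∈ A, a ≤ t ∨ t ≤ a := fun D k => by
    obtain ⟨A, a1, a2, a3⟩ := mac (fun a b : T => a ≤ b ∨ b ≤ a) (fun _ _ => Or.symm)
      (fun _ => .inl le_rfl) D
    refine ⟨A, a1, h4 A (a2.imp fun _ _ l m => l (.inl m)), fun t => ?_⟩
    obtain ⟨u, l, m⟩ := k t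
    exact (a3 u l).imp fun a o => ⟨o.1, o.2.elim (fun p => .inr (m.trans p)) (tr · m)⟩
  refine ⟨range b, inferInstance, ⟨⟨fun x y n => ?_⟩, fun N n => ?_,
    countable_empty.mono fun x k => ?_, ⟨fun k => not_countable_univ
      ((countable_iUnion fun x : range b => h3 _ x.1.chain_le).mono fun t _ =>
        mem_iUnion.2 ⟨β t, hb t⟩)⟩⟩, fun 𝒰 o n c => ?_⟩
  · obtain ⟨s, k, l⟩ := not_subset.1 fun k => n (Subtype.ext (Flag.ext
      (x.1.maxChain.2 y.1.chain_le k)))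
    obtain ⟨t, m, p⟩ := by simpa only [not_forall] using mt Flag.mem_iff_forall_le_or_ge.2 l
    exact ⟨B s, B t, op s, op t, k, m, disjoint_left.2 fun z q r => p (Flag.le_or_le _ q r)⟩
  · obtain ⟨A, a1, a2, a3⟩ := gen {s | B s ⊆ Nᶜ} fun s => by
      obtain ⟨x, k, l⟩ := (interior_eq_empty_iff_dense_compl.1 n).inter_open_nonempty _ (op s)
        ⟨β s, hb s⟩
      obtain ⟨t, -, p, q⟩ := up x _ s k ((isClosed_closure (s := N)).isOpen_compl x l)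
      exact ⟨t, q.trans (compl_subset_compl.2 subset_closure), p⟩
    refine ((a2.biUnion fun a _ => h3 _ (h2 a)).image β).mono ?_
    rintro ⟨_, t, rfl⟩ k
    obtain ⟨a, l, m⟩ := a3 t
    exact ⟨t, mem_biUnion l (m.resolve_left fun p => a1 l (dn p (hb t)) k), rfl⟩
  · obtain ⟨s, -, l⟩ := k x rfl
    obtain ⟨u, v, p, q, r, w⟩ := h5 s
    have : β u = β v := (l (dn p.le (hb u))).trans (l (dn q.le (hb v))).symm
    exact (Flag.le_or_le _ (hb u) (show v ∈ (β u).1 from this ▸ hb v)).elim r w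
  choose A' a1 a2 a3 using fun m : T => gen {u | u ≤ m → m ≤ u} fun s => by
    by_cases k : s ≤ m
    exacts [⟨m, id, k⟩, ⟨s, fun l => (k l).elim, le_rfl⟩]
  have : ∀ G F : Set T, ∃ A : Set (F → T), (F.Finite → IsAntichain (· ≤ ·) F → A.Countable) ∧
      (G.Finite → F.Finite → ∀ s : F → T, (∀ i : F, i.1 ≤ s i) → ∃ a ∈ A, (∃ c, s ≤ c ∧ a ≤ c) ∧
        ∃ U ∈ 𝒰, β '' G ⊆ U ∧ ∀ i, B (a i) ⊆ U) := fun G F => by
    obtain ⟨A, k, l, m⟩ := mac (fun a b : F → T => ∃ c, a ≤ c ∧ b ≤ c)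
      (fun _ _ => Exists.imp fun _ => And.symm) (fun a => ⟨a, le_rfl, le_rfl⟩)
      {a | (∀ i : F, i.1 ≤ a i) ∧ ∃ U ∈ 𝒰, β '' G ⊆ U ∧ ∀ i, B (a i) ⊆ U}
    refine ⟨A, fun p q => h6 F p q A (fun a r => (k r).1) l, fun p q s r => ?_⟩
    have := q.to_subtype
    obtain ⟨U, v, w⟩ := c _ ((p.image β).union (finite_range fun i => β (s i)))
    choose t _ t1 t2 using fun i => up _ U _ (hb (s i)) (o U v _ (w (.inr ⟨i, rfl⟩)))
    obtain ⟨a, y, z, z1, z2⟩ := m t ⟨fun i => (r i).trans (t1 i), U, v, subset_union_left.trans w, t2⟩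
    exact ⟨a, y, ⟨z, le_trans t1 z1, z2⟩, (k y).2⟩
  choose A b1 b2 using this
  obtain ⟨t₀⟩ : Nonempty T := inferInstance
  obtain ⟨M, m1, m2, m3⟩ := clo t₀ (fun H => (⋃ m ∈ H, Iic m ∪ A' m) ∪ ⋃ G ∈ 𝒫 H,
    ⋃ F ∈ {F ⊆ H | IsAntichain (· ≤ ·) F}, ⋃ a ∈ A G F, range a) fun H k =>
    (k.countable.biUnion fun m _ => (h3 _ (h2 m)).union (a2 m)).union
      (k.finite_subsets.countable.biUnion fun G _ => (k.finite_subsets.subset
        fun _ => And.left).countable.biUnion fun F l => (b1 G F (k.subset l.1) l.2).biUnion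
          fun a _ => have := (k.subset l.1).to_subtype; countable_range a)
  have m4 : ∀ m ∈ M, Iic m ∪ A' m ⊆ M := fun m k x l =>
    m3 {m} (singleton_subset_iff.2 k) (finite_singleton m) (.inl (mem_biUnion rfl l))
  have m5 : ∀ m ∈ M, ∀ r ∉ M, m ≤ r ∨ r ≤ m → m ≤ r := fun m k r l p =>
    p.resolve_right fun q => l (m4 m k (.inl q))
  obtain ⟨R, r1, r2, r3⟩ := mac (fun a b : T => M ∩ Iic a = M ∩ Iic b) (fun _ _ => Eq.symm)
    (fun _ => rfl) Mᶜ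
  have K : ∀ G ⊆ M, G.Finite → ∀ S ⊆ R, S.Finite → ∃ U ∈ 𝒰, β '' G ⊆ U ∧
      ∀ r ∈ S, ∀ s, M ∩ Iic s = M ∩ Iic r → β s ∈ U := fun G g1 g2 S s1 s2 => by
    have : ∀ r ∈ R, ∀ S : Set T, S.Finite → S ⊆ R → ∃ t ∈ M ∩ Iic r, ∀ z ∈ S, r ≠ z → ¬ t ≤ z :=
      fun r k S s2 s1 => by
      have e : ∀ m ∈ M, ∃ a ∈ M ∩ Iic r, a ≤ m → m ≤ a := fun m l =>
        (a3 m r).imp fun a p => ⟨⟨m4 m l (.inr p.1), m5 _ (m4 m l (.inr p.1)) _ (r1 k) p.2⟩, a1 m p.1⟩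
      induction S, s2 using Set.Finite.induction_on with
      | empty => exact (e _ m2).imp fun t l => ⟨l.1, nofun⟩
      | @insert z S _ _ l =>
        obtain ⟨t, l, p⟩ := l ((subset_insert _ _).trans s1)
        rcases eq_or_ne r z with rfl | q
        · exact ⟨t, l, forall_mem_insert.2 ⟨(· rfl |>.elim), p⟩⟩
        obtain ⟨w, v, y⟩ := not_subset.1 fun v : M ∩ Iic r ⊆ Iic z => r2 k (s1 (.inl rfl)) q
          (subset_antisymm (subset_inter inter_subset_left v) fun m y => by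
            obtain ⟨a, i, j⟩ := e m y.1
            exact ⟨y.1, ((tr (v i) y.2).elim j id).trans i.2⟩)
        rcases tr l.2 v.2 with i | i
        · exact ⟨w, v, forall_mem_insert.2 ⟨fun _ => y, fun z j q f => p z j q (i.trans f)⟩⟩
        · exact ⟨t, l, forall_mem_insert.2 ⟨fun _ f => y (i.trans f), p⟩⟩
    replace this := fun r : S => this r (s1 r.2) S s2 s1
    choose t t1 t2 using this
    have := s2.to_subtype
    have t3 : ∀ r z, t r ≤ t z → r = z := fun r z k => by_contra fun l =>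
      t2 r z z.2 (Subtype.coe_ne_coe.2 l) (k.trans (t1 z).2)
    choose s e using fun i : range t => i.2
    obtain ⟨a, i, ⟨z, j, k⟩, U, l, p, q⟩ := b2 G _ g2 (finite_range t) (fun i => s i)
      fun i => e i ▸ (t1 _).2
    refine ⟨U, l, p, fun r v y w => q ⟨_, ⟨r, v⟩, rfl⟩ (dn (w.ge ?_).2 (hb y))⟩
    have f := m3 (G ∪ range t) (union_subset g1 (range_subset_iff.2 fun r => (t1 r).1))
      (g2.union (finite_range t)) (.inr (mem_biUnion subset_union_left (mem_biUnion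
        ⟨subset_union_right, by
          rintro _ ⟨r, rfl⟩ _ ⟨z, rfl⟩ x y
          exact x (t3 r z y ▸ rfl)⟩ (mem_biUnion i ⟨⟨_, ⟨r, v⟩, rfl⟩, rfl⟩))))
    have g : (s ⟨_, ⟨r, v⟩, rfl⟩ : T) ≤ z _ := j ⟨_, ⟨r, v⟩, rfl⟩
    rw [t3 _ _ (e ⟨_, ⟨r, v⟩, rfl⟩).le] at g
    exact ⟨f, m5 _ f _ (r1 (s1 v)) (tr (k _) g)⟩
  obtain ⟨e, he⟩ := (m1.union (h4 R fun x k y l p q => r2 k l p (subset_antisymm
    (inter_subset_inter_right _ (Iic_subset_Iic.2 q)) fun m v =>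
      ⟨v.1, m5 _ v.1 _ (r1 k) (tr v.2 q)⟩))).exists_eq_range ⟨_, .inl m2⟩
  choose U u1 u2 u3 using fun k => K (M ∩ e '' Iic k) inter_subset_left
    (((finite_Iic k).image e).inter_of_right _) (R ∩ e '' Iic k) inter_subset_left
    (((finite_Iic k).image e).inter_of_right _)
  have ev : ∀ x, ∀ᶠ k in atTop, x ∈ U k := by
    rintro ⟨_, s, rfl⟩
    by_cases k : s ∈ M
    · obtain ⟨j, l⟩ := he.le (.inl k)
      exact (eventually_ge_atTop j).mono fun i p => u2 i ⟨s, ⟨k, j, p, l⟩, rfl⟩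
    obtain ⟨r, p, q⟩ := r3 s k
    obtain ⟨j, l⟩ := he.le (.inr p)
    exact (eventually_ge_atTop j).mono fun i v => u3 i r ⟨p, j, v, l⟩ s q
  refine ⟨range U, range_subset_iff.2 u1, fun k => ?_, eq_univ_of_forall fun x =>
    (ev x).exists.elim fun i l => ⟨_, ⟨i, rfl⟩, l⟩, fun x => ((show {i | x ∉ U i}.Finite from
      (Nat.cofinite_eq_atTop ▸ ev x :)).image U).subset ?_⟩
  · choose! x l using fun V (l : V ∈ range U) => (ne_univ_iff_exists_notMem V).1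
      fun p => n (p ▸ range_subset_iff.2 u1 l)
    obtain ⟨i, p⟩ := ((eventually_all_finite k).2 fun V _ => ev (x V)).exists
    exact l _ ⟨i, rfl⟩ (p _ ⟨i, rfl⟩)
  · rintro _ ⟨⟨i, rfl⟩, l⟩
    exact ⟨i, l, rfl⟩

end Pool.Agent.Results.MP_1599f7_gt.Free
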